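import Pool.Agent.Lib.MP_45c416_gt.C.Meas
import Pool.Agent.Lib.MP_45c416_gt.C.RN
import Pool.Agent.Lib.MP_45c416_gt.C.Rich

/-!
# A Radon-Nikodym compact space that is no continuous image of a closed subset of any `M₁(S)`
with `S` scattered

There is one Radon-Nikodym compact space `K` such that, for every scattered compact Hausdorff
space `S`, no closed subset of `M₁(S)` maps continuously onto `K`; in particular `K` embeds
neither in `M₁(S)` nor in `P(S)`.
-/

namespace Pool.Agent.Results.MP_45c416_gt.NoImage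

open Pool.Agent.Lib.MP_45c416_gt Pool.Agent.Lib.MP_45c416_gt.C

/-- Probability measures have norm at most one. -/
theorem PS_le (S : Type*) [TopologicalSpace S] [CompactSpace S] : PS S ⊆ M1 S := by
  rintro φ ⟨h1, h2⟩ f
  have hb : ∀ g : C(S, ℝ), φ g ≤ ‖g‖ := by
    intro g
    have h3 := h1 (‖g‖ • (1 : C(S, ℝ)) - g) (by
      intro x
      have := g.norm_coe_le_norm x
      have h4 := le_abs_self (g x)
      rw [Real.norm_eq_abs] at this
      show (0 : ℝ) ≤ ‖g‖ * 1 - g x
      linarith)
    rw [map_sub, map_smul, h2, smul_eq_mul, mul_one] at h3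
    linarith
  rw [abs_le]
  constructor
  · have := hb (-f)
    rw [map_neg, norm_neg] at this
    linarith
  · exact hb f

theorem result : ∃ (K : Type) (_ : TopologicalSpace K), IsRNCompact K ∧
    ∀ (S : Type*) [TopologicalSpace S] [CompactSpace S] [T2Space S], IsScattered S →
      (¬ ∃ e : K → PS S, Topology.IsEmbedding e) ∧
      (¬ ∃ e : K → M1 S, Topology.IsEmbedding e) ∧
      (¬ ∃ (Z : Set (M1 S)) (p : Z → K), IsClosed Z ∧ Continuous p ∧ Function.Surjective p) := by
  obtain ⟨Sy, hSy⟩ := exists_rich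
  refine ⟨Sy.KSet, inferInstance, Sy.isRN, ?_⟩
  intro S _ _ _ hS
  have hc : ¬ ∃ (Z : Set (M1 S)) (p : Z → Sy.KSet), IsClosed Z ∧ Continuous p ∧
      Function.Surjective p := by
    rintro ⟨Z, p, hZ, hp, hs⟩
    exact no_surjection Sy hSy S hS Z hZ p hp hs
  have hb : ¬ ∃ e : Sy.KSet → M1 S, Topology.IsEmbedding e := by
    rintro ⟨e, he⟩
    have hK : CompactSpace Sy.KSet := isCompact_iff_compactSpace.mp Sy.isCompact_KSet
    refine hc ⟨Set.range e, he.toHomeomorph.symm, ?_, he.toHomeomorph.symm.continuous,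
      he.toHomeomorph.symm.surjective⟩
    exact (isCompact_range he.continuous).isClosed
  refine ⟨?_, hb, hc⟩
  rintro ⟨e, he⟩
  apply hb
  refine ⟨fun x => Set.inclusion (PS_le S) (e x), ?_⟩
  exact (Topology.IsEmbedding.inclusion (PS_le S)).comp he

end Pool.Agent.Results.MP_45c416_gt.NoImage
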